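import Pool.Agent.H54.NR.Retract

/-!
# Nonexpansive retractions onto common fixed point sets of semigroups with an invariant mean on `WAP(S)`

Let `S` be a semitopological semigroup such that `WAP(S)` has a left invariant mean. For every weakly separately
continuous, weakly quasi-equicontinuous, `Q`-nonexpansive representation of `S` on a nonempty weakly compact convex
subset `C` of a Hausdorff locally convex space `(E, Q)` the library gives a common fixed point (property (F)). Here: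
the set `F` of the common fixed points is the image of a `Q`-nonexpansive retraction `r` of `C`, which maps every
closed convex invariant subset of `C` into itself; and any two points of `F` are joined in `F` by a curve which is a
segment for all seminorms in `Q` at once. The method is that of Bruck: the maps `f` of `C` into itself which are
`Q`-nonexpansive, fix `F` and preserve all closed convex invariant sets form a compact convex semigroup that contains
`T s ∘ f` with `f`; the set of the values `f z` is a closed convex invariant set, so it contains a common fixed point;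
a minimal element `r` of the semigroup does the rest.
-/

set_option autoImplicit false

open Filter Topology Set
open scoped BoundedContinuousFunction
open Pool.Agent.Y972.WAP (WAPspace IsLIM)

namespace Pool.Agent.Results.MP_c68506_an.NonexpansiveRetract

/-- `x` is a common fixed point of the maps `T s`. -/
def IsFixed {S X : Type*} (T : S → X → X) (x : X) : Prop := ∀ s, T s x = x

/-- `K` is mapped into itself by all maps `T s`. -/
def IsInvariant {S X : Type*} (T : S → X → X) (K : Set X) : Prop := ∀ s, ∀ x ∈ K, T s x ∈ K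

/-- The subset `K` of the convex set `C` is convex. -/
def ConvexIn {𝕜 E : Type*} [RCLike 𝕜] [AddCommGroup E] [Module 𝕜 E] [TopologicalSpace E]
    (C : Set (WeakSpace 𝕜 E)) (K : Set C) : Prop :=
  ∀ x ∈ K, ∀ y ∈ K, ∀ a b : ℝ, 0 ≤ a → 0 ≤ b → a + b = 1 →
    ∀ z : C, (z : WeakSpace 𝕜 E) = (a : 𝕜) • (x : WeakSpace 𝕜 E) + (b : 𝕜) • (y : WeakSpace 𝕜 E) → z ∈ K

/-- The seminorm `Q i` of the difference of two points of `E` (with the weak topology). -/
noncomputable def dist {𝕜 E ι : Type*} [RCLike 𝕜] [AddCommGroup E] [Module 𝕜 E] [TopologicalSpace E]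
    (Q : SeminormFamily 𝕜 E ι) (i : ι) (x y : WeakSpace 𝕜 E) : ℝ :=
  Q i ((toWeakSpace 𝕜 E).symm x - (toWeakSpace 𝕜 E).symm y)

section

variable {𝕜 𝕂 S E ι : Type*} [RCLike 𝕜] [RCLike 𝕂]
  [Semigroup S] [TopologicalSpace S] [SeparatelyContinuousMul S]
  [AddCommGroup E] [Module 𝕜 E] [TopologicalSpace E] [T2Space E]

omit [T2Space E] in
theorem dist_comb (Q : SeminormFamily 𝕜 E ι) (i : ι) (x y u v : WeakSpace 𝕜 E) (a b c : ℝ)
    (ha : 0 ≤ a) (hb : 0 ≤ b) (hab : a + b = 1) (h1 : dist Q i x u ≤ c) (h2 : dist Q i y v ≤ c) :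
    dist Q i ((a : 𝕜) • x + (b : 𝕜) • y) ((a : 𝕜) • u + (b : 𝕜) • v) ≤ c := by
  unfold dist at *
  have e : (toWeakSpace 𝕜 E).symm ((a : 𝕜) • x + (b : 𝕜) • y) -
      (toWeakSpace 𝕜 E).symm ((a : 𝕜) • u + (b : 𝕜) • v) =
      (a : 𝕜) • ((toWeakSpace 𝕜 E).symm x - (toWeakSpace 𝕜 E).symm u) +
      (b : 𝕜) • ((toWeakSpace 𝕜 E).symm y - (toWeakSpace 𝕜 E).symm v) := by
    simp only [map_add, map_smul, smul_sub]
    abel
  rw [e]
  refine (map_add_le_add _ _ _).trans ?_
  rw [map_smul_eq_mul, map_smul_eq_mul]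
  have ea : ‖(a : 𝕜)‖ = a := by rw [RCLike.norm_ofReal, abs_of_nonneg ha]
  have eb : ‖(b : 𝕜)‖ = b := by rw [RCLike.norm_ofReal, abs_of_nonneg hb]
  rw [ea, eb]
  calc _ ≤ a * c + b * c := add_le_add (mul_le_mul_of_nonneg_left h1 ha)
        (mul_le_mul_of_nonneg_left h2 hb)
    _ = c := by rw [← add_mul, hab, one_mul]

/-- The retraction. -/
theorem exists_retraction (hS : ∃ m : WAPspace 𝕂 S →ₗ[𝕂] 𝕂, IsLIM m)
    (Q : SeminormFamily 𝕜 E ι) (hQ : WithSeminorms Q)
    (C : Set (WeakSpace 𝕜 E)) (hC : IsCompact C)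
    (hconv : ∀ x ∈ C, ∀ y ∈ C, ∀ a b : ℝ, 0 ≤ a → 0 ≤ b → a + b = 1 →
      (a : 𝕜) • x + (b : 𝕜) • y ∈ C)
    (T : S → C → C) (hmul : ∀ s t x, T (s * t) x = T s (T t x))
    (hT : ∀ s, Continuous (T s)) (hTc : ∀ x, Continuous fun s => T s x)
    (hqe : ∀ g ∈ closure (range T), Continuous g)
    (hnonexp : ∀ (s : S) (i : ι) (x y : C), dist Q i (T s x) (T s y) ≤ dist Q i x y) :
    ∃ r : C → C, (∀ x, IsFixed T (r x)) ∧ (∀ x, IsFixed T x → r x = x) ∧
      (∀ i x y, dist Q i (r x) (r y) ≤ dist Q i x y) ∧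
      ∀ K : Set C, IsClosed K → ConvexIn C K → IsInvariant T K → ∀ x ∈ K, r x ∈ K := by
  let _ : Module ℝ E := Module.compHom E (algebraMap ℝ 𝕜)
  have hsm : ∀ (r : ℝ) (x : E), r • x = ((r : ℝ) : 𝕜) • x := fun r x => rfl
  have : IsScalarTower ℝ 𝕜 E := ⟨fun r c x => by
    rw [hsm, RCLike.real_smul_eq_coe_mul, mul_smul]⟩
  have := hQ.topologicalAddGroup
  have := hQ.continuousSMul
  have := hQ.toPolynormableSpace
  have : LocallyConvexSpace ℝ E := hQ.toLocallyConvexSpace
  have hCc : CompactSpace C := isCompact_iff_compactSpace.1 hC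
  have : SeparatingDual 𝕜 E := ⟨fun x hx => by
    obtain ⟨i, hi⟩ := hQ.separating_of_T1 x hx
    obtain ⟨g, hg, -⟩ := Pool.Agent.Y972.WAP.hb (Q i) (hQ.continuous_seminorm i) x
    refine ⟨g, ?_⟩
    rw [hg]
    exact_mod_cast hi⟩
  have hT2 : T2Space (WeakSpace 𝕜 E) := inferInstance
  have hcl : ∀ i c, IsClosed {p : C × C | dist Q i p.1 p.2 ≤ c} := by
    intro i c
    have h1 := Pool.Agent.Y972.WAP.isClosed_ball (𝕜 := 𝕜) (Q i) (hQ.continuous_seminorm i) 0 c
    have h2 : Continuous fun p : C × C => (p.1 : WeakSpace 𝕜 E) - (p.2 : WeakSpace 𝕜 E) :=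
      (continuous_subtype_val.comp continuous_fst).sub (continuous_subtype_val.comp continuous_snd)
    have h3 := h1.preimage h2
    have h4 : {p : C × C | dist Q i p.1 p.2 ≤ c} =
        (fun p : C × C => (p.1 : WeakSpace 𝕜 E) - (p.2 : WeakSpace 𝕜 E)) ⁻¹'
          {w : WeakSpace 𝕜 E | Q i (Pool.Agent.Y972.WAP.ee 𝕜 E w - 0) ≤ c} := by
      ext p
      show _ ↔ Q i (Pool.Agent.Y972.WAP.ee 𝕜 E ((p.1 : WeakSpace 𝕜 E) - (p.2 : WeakSpace 𝕜 E)) - 0) ≤ c
      rw [sub_zero, map_sub]
      rfl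
    rw [h4]
    exact h3
  let N : Set (C → C) := {f | (∀ i x y, dist Q i (f x) (f y) ≤ dist Q i x y) ∧
    (∀ x, IsFixed T x → f x = x) ∧
    ∀ K : Set C, IsClosed K → ConvexIn C K → IsInvariant T K → ∀ x ∈ K, f x ∈ K}
  have hN : IsClosed N := by
    have e : N = (⋂ i, ⋂ x, ⋂ y, {f : C → C | dist Q i (f x) (f y) ≤ dist Q i x y}) ∩
        ((⋂ x : {x : C // IsFixed T x}, {f : C → C | f x = x}) ∩
        ⋂ K : {K : Set C // IsClosed K ∧ ConvexIn C K ∧ IsInvariant T K}, ⋂ x : K.1,
          {f : C → C | f x ∈ K.1}) := by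
      ext f
      simp only [N, mem_ofPred_eq, mem_inter_iff, mem_iInter, Subtype.forall]
      constructor
      · rintro ⟨h1, h2, h3⟩
        exact ⟨h1, h2, fun K hK x hx => h3 K hK.1 hK.2.1 hK.2.2 x hx⟩
      · rintro ⟨h1, h2, h3⟩
        exact ⟨h1, h2, fun K hK1 hK2 hK3 x hx => h3 K ⟨hK1, hK2, hK3⟩ x hx⟩
    rw [e]
    refine (isClosed_iInter fun i => isClosed_iInter fun x => isClosed_iInter fun y => ?_).inter
      ((isClosed_iInter fun x => ?_).inter (isClosed_iInter fun K => isClosed_iInter fun x => ?_))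
    · exact (hcl i (dist Q i x y)).preimage
        ((continuous_apply x).prodMk (continuous_apply y) : Continuous fun g : C → C => (g x, g y))
    · exact isClosed_eq (continuous_apply _) continuous_const
    · exact K.2.1.preimage (continuous_apply (x : C) : Continuous fun f : C → C => f x)
  have hid : id ∈ N := ⟨fun i x y => le_rfl, fun x _ => rfl, fun K _ _ _ x hx => hx⟩
  have hcomp : ∀ f ∈ N, ∀ g ∈ N, f ∘ g ∈ N := by
    intro f hf g hg
    refine ⟨fun i x y => (hf.1 i _ _).trans (hg.1 i x y), fun x hx => ?_, fun K h1 h2 h3 x hx => ?_⟩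
    · rw [Function.comp_apply, hg.2.1 x hx, hf.2.1 x hx]
    · exact hf.2.2 K h1 h2 h3 _ (hg.2.2 K h1 h2 h3 x hx)
  have hTN : ∀ s, ∀ f ∈ N, (fun z => T s (f z)) ∈ N := by
    intro s f hf
    refine ⟨fun i x y => (hnonexp s i _ _).trans (hf.1 i x y), fun x hx => ?_, fun K h1 h2 h3 x hx => ?_⟩
    · show T s (f x) = x
      rw [hf.2.1 x hx, hx s]
    · exact h3 s _ (hf.2.2 K h1 h2 h3 x hx)
  have hsep : ∀ x y : C, (∀ i, dist Q i x y ≤ 0) → x = y := by
    intro x y h
    by_contra hxy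
    have h1 : (toWeakSpace 𝕜 E).symm x.1 - (toWeakSpace 𝕜 E).symm y.1 ≠ 0 := by
      intro h2
      exact hxy (Subtype.ext ((toWeakSpace 𝕜 E).symm.injective (sub_eq_zero.1 h2)))
    obtain ⟨i, hi⟩ := hQ.separating_of_T1 _ h1
    exact hi (le_antisymm (h i) (apply_nonneg _ _))
  have hz : ∀ z, ∃ f ∈ N, f z ∈ {x | IsFixed T x} := by
    intro z
    obtain ⟨x, ⟨f, hf, hfx⟩, hx⟩ := Pool.Agent.H54.NR.fixed_in hS Q hQ hT2 C hC hconv T hmul hT hTc hqe
      hnonexp ((fun f : C → C => f z) '' N)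
      ((hN.isCompact).image (continuous_apply z)).isClosed ⟨id z, id, hid, rfl⟩
      (by
        rintro _ ⟨f, hf, rfl⟩ _ ⟨g, hg, rfl⟩ a b ha hb hab w hw
        refine ⟨fun x => ⟨(a : 𝕜) • (f x : WeakSpace 𝕜 E) + (b : 𝕜) • (g x : WeakSpace 𝕜 E),
          hconv _ (f x).2 _ (g x).2 a b ha hb hab⟩, ⟨fun i x y => ?_, fun x hx => ?_,
          fun K h1 h2 h3 x hx => ?_⟩, Subtype.ext hw.symm⟩
        · exact dist_comb Q i _ _ _ _ a b _ ha hb hab (hf.1 i x y) (hg.1 i x y)
        · apply Subtype.ext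
          show (a : 𝕜) • (f x : WeakSpace 𝕜 E) + (b : 𝕜) • (g x : WeakSpace 𝕜 E) = x
          rw [hf.2.1 x hx, hg.2.1 x hx, ← add_smul, ← RCLike.ofReal_add, hab, RCLike.ofReal_one, one_smul]
        · exact h2 _ (hf.2.2 K h1 h2 h3 x hx) _ (hg.2.2 K h1 h2 h3 x hx) a b ha hb hab _ rfl)
      (by
        rintro s _ ⟨f, hf, rfl⟩
        exact ⟨_, hTN s f hf, rfl⟩)
    refine ⟨f, hf, ?_⟩
    have hfx' : f z = x := hfx
    rw [hfx']
    exact hx
  obtain ⟨r, hr, hrF⟩ := Pool.Agent.H54.NR.bruck (fun i (x y : C) => dist Q i x y) hcl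
    (fun i x => by simp [dist]) hsep N hN hid hcomp (fun f hf => hf.1) {x | IsFixed T x}
    (fun f hf x hx => hf.2.1 x hx) hz
  exact ⟨r, hrF, hr.2.1, hr.1, hr.2.2⟩

end

/-- Let `S` be a semitopological semigroup such that `WAP(S)` has a left invariant mean, `E` a Hausdorff locally
convex space with topology given by the family `Q` of seminorms, `C` a nonempty weakly compact convex subset of `E`,
and `T` a weakly separately continuous, weakly quasi-equicontinuous, `Q`-nonexpansive representation of `S` on `C`.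

1. `T` has a common fixed point (so `S` has property (F)).
2. There is a `Q`-nonexpansive retraction `r` of `C` onto the set of the common fixed points which maps every closed
convex invariant subset `K` of `C` into itself (so it maps `K` onto the set of the common fixed points in `K`).
3. Any two common fixed points `x`, `y` are joined by a curve `c` of common fixed points, parametrised by the unit
interval, such that `Q i (c a - c b) = |a - b| * Q i (x - y)` for all `a`, `b` and all seminorms `Q i`. -/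
theorem result {𝕜 𝕂 S E ι : Type*} [RCLike 𝕜] [RCLike 𝕂]
    [Semigroup S] [TopologicalSpace S] [SeparatelyContinuousMul S]
    (hS : ∃ m : WAPspace 𝕂 S →ₗ[𝕂] 𝕂, IsLIM m)
    [AddCommGroup E] [Module 𝕜 E] [TopologicalSpace E] [T2Space E]
    (Q : SeminormFamily 𝕜 E ι) (hQ : WithSeminorms Q)
    (C : Set (WeakSpace 𝕜 E)) (hne : C.Nonempty) (hC : IsCompact C)
    (hconv : ∀ x ∈ C, ∀ y ∈ C, ∀ a b : ℝ, 0 ≤ a → 0 ≤ b → a + b = 1 →
      (a : 𝕜) • x + (b : 𝕜) • y ∈ C)
    (T : S → C → C)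
    (hrep : ∀ s t x, T (s * t) x = T s (T t x))
    (hcont₁ : ∀ s, Continuous (T s)) (hcont₂ : ∀ x, Continuous fun s => T s x)
    (hquasi : ∀ g ∈ closure (range T), Continuous g)
    (hnonexp : ∀ (s : S) (i : ι) (x y : C), dist Q i (T s x) (T s y) ≤ dist Q i x y) :
    (∃ x : C, IsFixed T x) ∧
    (∃ r : C → C, (∀ x, IsFixed T (r x)) ∧ (∀ x, IsFixed T x → r x = x) ∧
      (∀ i x y, dist Q i (r x) (r y) ≤ dist Q i x y) ∧
      ∀ K : Set C, IsClosed K → ConvexIn C K → IsInvariant T K → ∀ x ∈ K, r x ∈ K) ∧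
    ∀ x y : C, IsFixed T x → IsFixed T y → ∃ c : unitInterval → C, c 0 = x ∧ c 1 = y ∧
      (∀ a, IsFixed T (c a)) ∧
      ∀ i, ∀ a b : unitInterval, dist Q i (c a) (c b) = |(a : ℝ) - b| * dist Q i x y := by
  obtain ⟨r, h1, h2, h3, h4⟩ := exists_retraction hS Q hQ C hC hconv T hrep hcont₁ hcont₂ hquasi hnonexp
  refine ⟨?_, ⟨r, h1, h2, h3, h4⟩, ?_⟩
  · obtain ⟨x, hx⟩ := hne
    exact ⟨r ⟨x, hx⟩, h1 _⟩
  · intro x y hx hy
    let p : unitInterval → C := fun a =>
      ⟨((1 - (a : ℝ) : ℝ) : 𝕜) • (x : WeakSpace 𝕜 E) + ((a : ℝ) : 𝕜) • (y : WeakSpace 𝕜 E),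
        hconv _ x.2 _ y.2 _ _ (sub_nonneg.2 a.2.2) a.2.1 (by ring)⟩
    have hp : ∀ i, ∀ a b : unitInterval, dist Q i (p a) (p b) = |(a : ℝ) - b| * dist Q i x y := by
      intro i a b
      unfold dist
      have e : (toWeakSpace 𝕜 E).symm (p a : WeakSpace 𝕜 E) - (toWeakSpace 𝕜 E).symm (p b : WeakSpace 𝕜 E) =
          (((b : ℝ) - a : ℝ) : 𝕜) • ((toWeakSpace 𝕜 E).symm x - (toWeakSpace 𝕜 E).symm y) := by
        simp only [p, map_add, map_smul, RCLike.ofReal_sub, RCLike.ofReal_one]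
        module
      rw [e, map_smul_eq_mul, RCLike.norm_ofReal, abs_sub_comm]
    have hsymm : ∀ i (u v : C), dist Q i u v = dist Q i v u := fun i u v => map_sub_rev _ _ _
    have htri : ∀ i (u v w : C), dist Q i u w ≤ dist Q i u v + dist Q i v w := by
      intro i u v w
      unfold dist
      have e : (toWeakSpace 𝕜 E).symm (u : WeakSpace 𝕜 E) - (toWeakSpace 𝕜 E).symm (w : WeakSpace 𝕜 E) =
          ((toWeakSpace 𝕜 E).symm (u : WeakSpace 𝕜 E) - (toWeakSpace 𝕜 E).symm (v : WeakSpace 𝕜 E)) +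
          ((toWeakSpace 𝕜 E).symm (v : WeakSpace 𝕜 E) - (toWeakSpace 𝕜 E).symm (w : WeakSpace 𝕜 E)) := by
        abel
      rw [e]
      exact map_add_le_add _ _ _
    have hp0 : p 0 = x := by
      apply Subtype.ext
      simp [p]
    have hp1 : p 1 = y := by
      apply Subtype.ext
      simp [p]
    have hc0 : r (p 0) = x := by rw [hp0, h2 x hx]
    have hc1 : r (p 1) = y := by rw [hp1, h2 y hy]
    have hle : ∀ i, ∀ a b : unitInterval,
        dist Q i (r (p a)) (r (p b)) ≤ |(a : ℝ) - b| * dist Q i x y :=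
      fun i a b => (h3 i _ _).trans (hp i a b).le
    have hkey : ∀ i, ∀ a b : unitInterval, (a : ℝ) ≤ b →
        dist Q i (r (p a)) (r (p b)) = |(a : ℝ) - b| * dist Q i x y := by
      intro i a b hab
      apply le_antisymm (hle i a b)
      have e1 := htri i x (r (p a)) y
      have e2 := htri i (r (p a)) (r (p b)) y
      have e3 := hle i 0 a
      have e4 := hle i b 1
      rw [hc0] at e3
      rw [hc1] at e4
      have a0 := a.2.1
      have b1 := b.2.2
      have t1 : |((0 : unitInterval) : ℝ) - a| = a := by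
        rw [Set.Icc.coe_zero, zero_sub, abs_neg, abs_of_nonneg a0]
      have t2 : |(b : ℝ) - (1 : unitInterval)| = 1 - b := by
        rw [Set.Icc.coe_one, abs_sub_comm, abs_of_nonneg (sub_nonneg.2 b1)]
      have t3 : |(a : ℝ) - b| = b - a := by
        rw [abs_sub_comm, abs_of_nonneg (sub_nonneg.2 hab)]
      rw [t1] at e3
      rw [t2] at e4
      rw [t3]
      have e5 : dist Q i x y = a * dist Q i x y + (b - a) * dist Q i x y + (1 - b) * dist Q i x y := by ring
      linarith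
    refine ⟨fun a => r (p a), hc0, hc1, fun a => h1 _, fun i a b => ?_⟩
    rcases le_total (a : ℝ) b with hab | hab
    · exact hkey i a b hab
    · show dist Q i (r (p a)) (r (p b)) = _
      rw [hsymm, hkey i b a hab, abs_sub_comm]

end Pool.Agent.Results.MP_c68506_an.NonexpansiveRetract
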